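import Mathlib
import Pool.Agent.Helper390.CovarioA

set_option autoImplicit false

open MeasureTheory Set Filter Topology FourierTransform SchwartzMap
open scoped ENNReal NNReal Real ComplexConjugate

namespace Pool.Agent.Results.MP_8ec070_an.DiscEndpoint

/-- The Euclidean plane. -/
abbrev Plane : Type := EuclideanSpace ℝ (Fin 2)

/-- The disc multiplier of the disc of radius `ρ` applied to a Schwartz function: the inverse Fourier
transform of the indicator of the disc times the Fourier transform. -/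
noncomputable def discMultiplier (ρ : ℝ) (f : 𝓢(Plane, ℂ)) (x : Plane) : ℂ :=
  𝓕⁻ (indicator (Metric.ball (0 : Plane) ρ) (𝓕 (f : Plane → ℂ))) x

/-- A weight: a nonnegative (Borel measurable) locally integrable function on the plane. -/
def IsWeight (φ : Plane → ℝ) : Prop :=
  Measurable φ ∧ (∀ x, 0 ≤ φ x) ∧ LocallyIntegrable φ

/-- The ray maximal function `M_0 φ` of a nonnegative function `φ`: the supremum over all unit
vectors `ω` and all `r > 0` of `(2 / r ^ 2) ∫_0^r φ (x - s ω) s ds`. -/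
noncomputable def rayMax (φ : Plane → ℝ) (x : Plane) : ℝ≥0∞ :=
  ⨆ (ω : Plane) (_ : ‖ω‖ = 1) (r : ℝ) (_ : 0 < r),
    ENNReal.ofReal (2 / r ^ 2) * ∫⁻ s in Ioc (0 : ℝ) r, ENNReal.ofReal (φ (x - s • ω) * s)

/-- the weight used: the indicator of the closed unit disc -/
noncomputable def wt : Plane → ℝ := indicator (Metric.closedBall (0 : Plane) 1) 1

theorem wt_nonneg (x : Plane) : 0 ≤ wt x := by
  unfold wt
  by_cases h : x ∈ Metric.closedBall (0 : Plane) 1
  · simp [indicator_of_mem h]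
  · simp [indicator_of_notMem h]

theorem wt_le_one (x : Plane) : wt x ≤ 1 := by
  unfold wt
  by_cases h : x ∈ Metric.closedBall (0 : Plane) 1
  · simp [indicator_of_mem h]
  · simp [indicator_of_notMem h]

theorem measurable_wt : Measurable wt :=
  measurable_one.indicator Metric.isClosed_closedBall.measurableSet

theorem isWeight_wt : IsWeight wt := by
  refine ⟨measurable_wt, wt_nonneg, ?_⟩
  have : Integrable wt := by
    unfold wt
    rw [integrable_indicator_iff Metric.isClosed_closedBall.measurableSet]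
    exact integrableOn_const (hs := (isCompact_closedBall (0 : Plane) 1).measure_lt_top.ne)
  exact this.locallyIntegrable

theorem rayMax_wt_le (x : Plane) : rayMax wt x ≤ ENNReal.ofReal (8 / (1 + ‖x‖)) := by
  unfold rayMax
  refine iSup_le fun ω => iSup_le fun hω => iSup_le fun r => iSup_le fun hr => ?_
  have hx0 : 0 ≤ ‖x‖ := norm_nonneg x
  -- the integral of `s` on the relevant part
  rcases le_total ‖x‖ 3 with h3 | h3
  · -- crude bound by one
    have h1 : ∫⁻ s in Ioc (0 : ℝ) r, ENNReal.ofReal (wt (x - s • ω) * s) ≤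
        ∫⁻ s in Ioc (0 : ℝ) r, ENNReal.ofReal r := by
      refine setLIntegral_mono measurable_const ?_
      intro s hs
      refine ENNReal.ofReal_le_ofReal ?_
      calc wt (x - s • ω) * s ≤ 1 * r :=
            mul_le_mul (wt_le_one _) hs.2 hs.1.le zero_le_one
        _ = r := one_mul r
    calc ENNReal.ofReal (2 / r ^ 2) * ∫⁻ s in Ioc (0 : ℝ) r, ENNReal.ofReal (wt (x - s • ω) * s)
        ≤ ENNReal.ofReal (2 / r ^ 2) * ∫⁻ s in Ioc (0 : ℝ) r, ENNReal.ofReal r := by gcongr
      _ = ENNReal.ofReal 2 := by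
          rw [setLIntegral_const, Real.volume_Ioc, sub_zero, ← ENNReal.ofReal_mul hr.le,
            ← ENNReal.ofReal_mul (by positivity)]
          congr 1
          field_simp
      _ ≤ ENNReal.ofReal (8 / (1 + ‖x‖)) := by
          refine ENNReal.ofReal_le_ofReal ?_
          rw [le_div_iff₀ (by positivity)]
          linarith
  · -- far away
    have hsub : ∀ s ∈ Ioc (0 : ℝ) r, wt (x - s • ω) * s ≤
        indicator (Icc (‖x‖ - 1) (‖x‖ + 1)) (fun _ => r) s := by
      intro s hs
      by_cases hmem : s ∈ Icc (‖x‖ - 1) (‖x‖ + 1)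
      · rw [indicator_of_mem hmem]
        calc wt (x - s • ω) * s ≤ 1 * r :=
              mul_le_mul (wt_le_one _) hs.2 hs.1.le zero_le_one
          _ = r := one_mul r
      · rw [indicator_of_notMem hmem]
        have : wt (x - s • ω) = 0 := by
          unfold wt
          apply indicator_of_notMem
          intro hball
          rw [mem_closedBall_zero_iff] at hball
          apply hmem
          have e1 : ‖x‖ - ‖s • ω‖ ≤ ‖x - s • ω‖ := norm_sub_norm_le _ _
          have e2 : ‖s • ω‖ - ‖x‖ ≤ ‖s • ω - x‖ := norm_sub_norm_le _ _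
          rw [norm_sub_rev] at e2
          have e3 : ‖s • ω‖ = s := by
            rw [norm_smul, hω, mul_one, Real.norm_of_nonneg hs.1.le]
          rw [e3] at e1 e2
          exact ⟨by linarith, by linarith⟩
        rw [this, zero_mul]
    rcases lt_or_ge r (‖x‖ - 1) with hr1 | hr1
    · have h0 : ∫⁻ s in Ioc (0 : ℝ) r, ENNReal.ofReal (wt (x - s • ω) * s) = 0 := by
        rw [setLIntegral_congr_fun (g := fun _ => 0) measurableSet_Ioc]
        · simp
        · intro s hs
          have h := hsub s hs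
          rw [indicator_of_notMem (by intro hh; linarith [hh.1, hs.2])] at h
          exact ENNReal.ofReal_of_nonpos h
      rw [h0, mul_zero]
      exact zero_le
    · have h1 : ∫⁻ s in Ioc (0 : ℝ) r, ENNReal.ofReal (wt (x - s • ω) * s) ≤
          ENNReal.ofReal (2 * r) := by
        calc ∫⁻ s in Ioc (0 : ℝ) r, ENNReal.ofReal (wt (x - s • ω) * s)
            ≤ ∫⁻ s in Ioc (0 : ℝ) r, ENNReal.ofReal
                (indicator (Icc (‖x‖ - 1) (‖x‖ + 1)) (fun _ => r) s) := by
              refine setLIntegral_mono ?_ ?_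
              · exact ENNReal.measurable_ofReal.comp
                  (measurable_const.indicator measurableSet_Icc)
              · intro s hs
                exact ENNReal.ofReal_le_ofReal (hsub s hs)
          _ ≤ ∫⁻ s, ENNReal.ofReal (indicator (Icc (‖x‖ - 1) (‖x‖ + 1)) (fun _ => r) s) :=
              setLIntegral_le_lintegral _ _
          _ = ∫⁻ s, indicator (Icc (‖x‖ - 1) (‖x‖ + 1)) (fun _ => ENNReal.ofReal r) s := by
              congr 1
              ext s
              by_cases hmem : s ∈ Icc (‖x‖ - 1) (‖x‖ + 1)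
              · rw [indicator_of_mem hmem, indicator_of_mem hmem]
              · rw [indicator_of_notMem hmem, indicator_of_notMem hmem, ENNReal.ofReal_zero]
          _ = ENNReal.ofReal (2 * r) := by
              rw [lintegral_indicator measurableSet_Icc, setLIntegral_const, Real.volume_Icc,
                ← ENNReal.ofReal_mul hr.le]
              congr 1
              ring
      calc ENNReal.ofReal (2 / r ^ 2) * ∫⁻ s in Ioc (0 : ℝ) r, ENNReal.ofReal (wt (x - s • ω) * s)
          ≤ ENNReal.ofReal (2 / r ^ 2) * ENNReal.ofReal (2 * r) := by gcongr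
        _ = ENNReal.ofReal (4 / r) := by
            rw [← ENNReal.ofReal_mul (by positivity)]
            congr 1
            field_simp
            ring
        _ ≤ ENNReal.ofReal (8 / (1 + ‖x‖)) := by
            refine ENNReal.ofReal_le_ofReal ?_
            rw [div_le_div_iff₀ hr (by positivity)]
            linarith

/-- the point `ρ e_2` on the boundary of the disc -/
noncomputable def pt (ρ : ℝ) : Plane := EuclideanSpace.single 1 ρ

/-- a modulated indicator of the closed unit disc -/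
noncomputable def gg (ρ : ℝ) : Plane → ℂ :=
  indicator (Metric.closedBall (0 : Plane) 1) (fun x => (𝐞 (-inner ℝ x (pt ρ)) : ℂ))

theorem norm_gg (ρ : ℝ) (x : Plane) : ‖gg ρ x‖ = wt x := by
  unfold gg wt
  by_cases h : x ∈ Metric.closedBall (0 : Plane) 1
  · rw [indicator_of_mem h, indicator_of_mem h, Circle.norm_coe]
    rfl
  · simp [indicator_of_notMem h]

theorem measurable_gg (ρ : ℝ) : Measurable (gg ρ) := by
  unfold gg
  refine Measurable.indicator ?_ Metric.isClosed_closedBall.measurableSet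
  have : Continuous (fun x : Plane => (𝐞 (-inner ℝ x (pt ρ)) : ℂ)) := by
    have h1 : Continuous (fun x : Plane => -inner ℝ x (pt ρ)) := by fun_prop
    exact continuous_subtype_val.comp (Real.continuous_fourierChar.comp h1)
  exact this.measurable

theorem integrable_wt : Integrable wt := by
  unfold wt
  rw [integrable_indicator_iff Metric.isClosed_closedBall.measurableSet]
  exact integrableOn_const (hs := (isCompact_closedBall (0 : Plane) 1).measure_lt_top.ne)

theorem integrable_gg (ρ : ℝ) : Integrable (gg ρ) := by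
  refine integrable_wt.mono (measurable_gg ρ).aestronglyMeasurable ?_
  refine Eventually.of_forall fun x => ?_
  rw [norm_gg, Real.norm_of_nonneg (wt_nonneg x)]

/-- inverse Fourier transform of `gg` -/
noncomputable def gh (ρ : ℝ) : Plane → ℂ := 𝓕⁻ (gg ρ)

theorem continuous_fourierInv {u : Plane → ℂ} (hu : Integrable u) : Continuous (𝓕⁻ u) := by
  have : Continuous (fun x => 𝓕 u (-x)) :=
    (VectorFourier.fourierIntegral_continuous Real.continuous_fourierChar
      continuous_inner hu).comp continuous_neg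
  refine this.congr fun x => ?_
  rw [Real.fourierInv_eq_fourier_neg]

theorem continuous_fourier' {u : Plane → ℂ} (hu : Integrable u) : Continuous (𝓕 u) :=
  VectorFourier.fourierIntegral_continuous Real.continuous_fourierChar continuous_inner hu

theorem continuous_gh (ρ : ℝ) : Continuous (gh ρ) := continuous_fourierInv (integrable_gg ρ)

theorem gh_pt (ρ : ℝ) : gh ρ (pt ρ) = ((volume.real (Metric.closedBall (0 : Plane) 1) : ℝ) : ℂ) := by
  unfold gh
  rw [Real.fourierInv_eq]
  have : ∀ x : Plane, 𝐞 (inner ℝ x (pt ρ)) • gg ρ x =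
      indicator (Metric.closedBall (0 : Plane) 1) (fun _ => (1 : ℂ)) x := by
    intro x
    unfold gg
    by_cases h : x ∈ Metric.closedBall (0 : Plane) 1
    · rw [indicator_of_mem h, indicator_of_mem h, Circle.smul_def, smul_eq_mul, ← Circle.coe_mul,
        ← AddChar.map_add_eq_mul]
      simp
    · rw [indicator_of_notMem h, indicator_of_notMem h, smul_zero]
  simp_rw [this]
  rw [integral_indicator Metric.isClosed_closedBall.measurableSet]
  simp

theorem norm_gh_le (ρ : ℝ) (x : Plane) : ‖gh ρ x‖ ≤ ∫ y, ‖gg ρ y‖ := by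
  unfold gh
  rw [Real.fourierInv_eq_fourier_neg]
  exact VectorFourier.norm_fourierIntegral_le_integral_norm _ _ _ _ _

/-- the truncated function -/
noncomputable def vv (ρ : ℝ) : Plane → ℂ := indicator (Metric.ball (0 : Plane) ρ) (gh ρ)

theorem measurable_vv (ρ : ℝ) : Measurable (vv ρ) :=
  (continuous_gh ρ).measurable.indicator Metric.isOpen_ball.measurableSet

theorem norm_vv_le (ρ : ℝ) (x : Plane) : ‖vv ρ x‖ ≤ ∫ y, ‖gg ρ y‖ := by
  unfold vv
  refine (norm_indicator_le_norm_self _ _).trans (norm_gh_le ρ x)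

theorem integrable_of_bdd_ball {u : Plane → ℂ} (ρ C : ℝ) (hu : Measurable u)
    (hC : ∀ x, ‖u x‖ ≤ C) (hs : ∀ x, x ∉ Metric.ball (0 : Plane) ρ → u x = 0) :
    Integrable u := by
  have h1 : u = indicator (Metric.ball (0 : Plane) ρ) u := by
    ext x
    by_cases h : x ∈ Metric.ball (0 : Plane) ρ
    · rw [indicator_of_mem h]
    · rw [indicator_of_notMem h, hs x h]
  rw [h1, integrable_indicator_iff Metric.isOpen_ball.measurableSet]
  refine Measure.integrableOn_of_bounded (M := C) ?_ hu.aestronglyMeasurable ?_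
  · exact measure_ball_lt_top.ne
  · exact Eventually.of_forall hC

theorem vv_zero (ρ : ℝ) (x : Plane) (h : x ∉ Metric.ball (0 : Plane) ρ) : vv ρ x = 0 := by
  unfold vv
  rw [indicator_of_notMem h]

theorem integrable_vv (ρ : ℝ) : Integrable (vv ρ) :=
  integrable_of_bdd_ball ρ _ (measurable_vv ρ) (norm_vv_le ρ) (vv_zero ρ)

/-- the dual function -/
noncomputable def GG (ρ : ℝ) : Plane → ℂ := 𝓕 (vv ρ)

theorem contDiff_GG (ρ : ℝ) : ContDiff ℝ ((⊤ : ℕ∞) : WithTop ℕ∞) (GG ρ) := by
  unfold GG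
  refine Real.contDiff_fourier fun n _ => ?_
  have hρ : ∀ x : Plane, ‖(‖x‖ ^ n * ‖vv ρ x‖ : ℝ)‖ ≤ |ρ| ^ n * ∫ y, ‖gg ρ y‖ := by
    intro x
    rw [Real.norm_of_nonneg (by positivity)]
    by_cases h : x ∈ Metric.ball (0 : Plane) ρ
    · have h1 : ‖x‖ ≤ |ρ| := (mem_ball_zero_iff.1 h).le.trans (le_abs_self ρ)
      exact mul_le_mul (pow_le_pow_left₀ (norm_nonneg x) h1 n) (norm_vv_le ρ x) (norm_nonneg _)
        (by positivity)
    · rw [vv_zero ρ x h, norm_zero, mul_zero]
      have : 0 ≤ ∫ y, ‖gg ρ y‖ := integral_nonneg fun _ => norm_nonneg _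
      positivity
  have h2 : Integrable (fun x : Plane => ((‖x‖ ^ n * ‖vv ρ x‖ : ℝ) : ℂ)) := by
    refine integrable_of_bdd_ball ρ (|ρ| ^ n * ∫ y, ‖gg ρ y‖) ?_ ?_ ?_
    · exact Complex.measurable_ofReal.comp
        ((measurable_norm.pow_const n).mul (measurable_vv ρ).norm)
    · intro x
      rw [Complex.norm_real]
      exact hρ x
    · intro x hx
      simp [vv_zero ρ x hx]
  have h3 := h2.re
  refine h3.congr (Eventually.of_forall fun x => ?_)
  exact Complex.ofReal_re _

theorem pairing (ρ : ℝ) (f : 𝓢(Plane, ℂ)) :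
    ∫ x, discMultiplier ρ f x * gg ρ x = ∫ x, f x * GG ρ x := by
  unfold discMultiplier GG
  have hm : Integrable (indicator (Metric.ball (0 : Plane) ρ) (𝓕 (f : Plane → ℂ))) := by
    rw [← SchwartzMap.fourier_coe]
    exact (𝓕 f).integrable.indicator Metric.isOpen_ball.measurableSet
  have h1 : ∫ x, 𝓕⁻ (indicator (Metric.ball (0 : Plane) ρ) (𝓕 (f : Plane → ℂ))) x * gg ρ x =
      ∫ x, indicator (Metric.ball (0 : Plane) ρ) (𝓕 (f : Plane → ℂ)) x * gh ρ x := by
    have := VectorFourier.integral_fourierIntegral_smul_eq_flip (L := -innerₗ Plane)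
      (μ := volume) (ν := volume) Real.continuous_fourierChar
      (continuous_inner (𝕜 := ℝ) (E := Plane)).neg hm (integrable_gg ρ)
    have hfl : (-innerₗ Plane).flip = -innerₗ Plane := by
      ext x y; simp [real_inner_comm]
    rw [hfl] at this
    exact this
  have h2 : ∫ x, 𝓕 (f : Plane → ℂ) x * vv ρ x = ∫ x, f x * 𝓕 (vv ρ) x := by
    have := VectorFourier.integral_fourierIntegral_smul_eq_flip (L := innerₗ Plane)
      (μ := volume) (ν := volume) Real.continuous_fourierChar continuous_inner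
      f.integrable (integrable_vv ρ)
    have hfl : (innerₗ Plane).flip = innerₗ Plane := by
      ext x y; simp
    rw [hfl] at this
    exact this
  rw [h1, ← h2]
  congr 1
  ext x
  unfold vv
  by_cases h : x ∈ Metric.ball (0 : Plane) ρ
  · rw [indicator_of_mem h, indicator_of_mem h]
  · rw [indicator_of_notMem h, indicator_of_notMem h, zero_mul, mul_zero]

/-- the weight of the Sobolev norm -/
noncomputable def JJ (x : Plane) : ℝ := Real.sqrt (1 + ‖x‖ ^ 2)

theorem JJ_pos (x : Plane) : 0 < JJ x := Real.sqrt_pos.2 (by positivity)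

theorem JJ_sq (x : Plane) : JJ x ^ 2 = 1 + ‖x‖ ^ 2 := Real.sq_sqrt (by positivity)

theorem norm_le_JJ (x : Plane) : ‖x‖ ≤ JJ x := by
  refine Real.le_sqrt_of_sq_le ?_
  linarith

theorem JJ_le (x : Plane) : JJ x ≤ 1 + ‖x‖ := by
  unfold JJ
  rw [Real.sqrt_le_left (by positivity)]
  nlinarith [norm_nonneg x]

theorem contDiff_JJ : ContDiff ℝ ((⊤ : ℕ∞) : WithTop ℕ∞) JJ := by
  unfold JJ
  refine ContDiff.sqrt ?_ ?_
  · exact contDiff_const.add (contDiff_norm_sq ℝ)
  · intro x; positivity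

/-- a smooth cutoff equal to one on the ball of radius `R` -/
noncomputable def cut (R : ℕ) : ContDiffBump (0 : Plane) :=
  ⟨R + 1, R + 2, by positivity, by linarith⟩

/-- the test function -/
noncomputable def testFun (ρ : ℝ) (R : ℕ) (x : Plane) : ℂ :=
  ((cut R x * JJ x : ℝ) : ℂ) * conj (GG ρ x)

theorem contDiff_testFun (ρ : ℝ) (R : ℕ) :
    ContDiff ℝ ((⊤ : ℕ∞) : WithTop ℕ∞) (testFun ρ R) := by
  unfold testFun
  refine ContDiff.mul ?_ ?_
  · exact Complex.ofRealCLM.contDiff.comp ((cut R).contDiff.mul contDiff_JJ)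
  · exact (Complex.conjCLE : ℂ ≃L[ℝ] ℂ).contDiff.comp (contDiff_GG ρ)

theorem hasCompactSupport_testFun (ρ : ℝ) (R : ℕ) : HasCompactSupport (testFun ρ R) := by
  have h : HasCompactSupport (cut R : Plane → ℝ) := (cut R).hasCompactSupport
  refine h.mono ?_
  intro x hx
  rw [Function.mem_support] at hx ⊢
  intro h0
  apply hx
  unfold testFun
  rw [h0]
  simp

/-- the test function as a Schwartz function -/
noncomputable def testSchwartz (ρ : ℝ) (R : ℕ) : 𝓢(Plane, ℂ) :=
  (hasCompactSupport_testFun ρ R).toSchwartzMap (contDiff_testFun ρ R)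

theorem testSchwartz_apply (ρ : ℝ) (R : ℕ) (x : Plane) : testSchwartz ρ R x = testFun ρ R x := rfl

/-- the truncated Sobolev norm -/
noncomputable def dens (ρ : ℝ) (R : ℕ) (x : Plane) : ℝ := cut R x * JJ x * ‖GG ρ x‖ ^ 2

theorem continuous_dens (ρ : ℝ) (R : ℕ) : Continuous (dens ρ R) := by
  unfold dens
  exact ((cut R).contDiff (n := 0)).continuous.mul contDiff_JJ.continuous |>.mul
    ((contDiff_GG ρ).continuous.norm.pow 2)

theorem dens_nonneg (ρ : ℝ) (R : ℕ) (x : Plane) : 0 ≤ dens ρ R x := by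
  unfold dens
  have := (cut R).nonneg (x := x)
  have := (JJ_pos x).le
  positivity

theorem integrable_dens (ρ : ℝ) (R : ℕ) : Integrable (dens ρ R) := by
  refine (continuous_dens ρ R).integrable_of_hasCompactSupport ?_
  refine (cut R).hasCompactSupport.mono ?_
  intro x hx
  rw [Function.mem_support] at hx ⊢
  intro h0
  apply hx
  unfold dens
  rw [h0]
  simp

theorem testFun_mul (ρ : ℝ) (R : ℕ) (x : Plane) :
    testFun ρ R x * GG ρ x = ((dens ρ R x : ℝ) : ℂ) := by
  unfold testFun dens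
  rw [mul_assoc, mul_comm (conj (GG ρ x)), Complex.mul_conj, Complex.normSq_eq_norm_sq]
  push_cast
  ring

theorem norm_testFun_sq (ρ : ℝ) (R : ℕ) (x : Plane) :
    ‖testFun ρ R x‖ ^ 2 * (8 / (1 + ‖x‖)) ≤ 8 * dens ρ R x := by
  have h1 : ‖testFun ρ R x‖ = cut R x * JJ x * ‖GG ρ x‖ := by
    unfold testFun
    rw [norm_mul, Complex.norm_real, RCLike.norm_conj, Real.norm_of_nonneg]
    have := (cut R).nonneg (x := x)
    have := (JJ_pos x).le
    positivity
  rw [h1]
  unfold dens
  have hc0 := (cut R).nonneg (x := x)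
  have hc1 := (cut R).le_one (x := x)
  have hJ := JJ_pos x
  have hJ2 := JJ_le x
  have hx := norm_nonneg x
  rw [mul_div_assoc', div_le_iff₀ (by positivity)]
  have e : cut R x * (cut R x) * (JJ x * JJ x) ≤ cut R x * 1 * (JJ x * (1 + ‖x‖)) := by
    gcongr
  nlinarith [mul_le_mul_of_nonneg_right e (show 0 ≤ 8 * ‖GG ρ x‖ ^ 2 by positivity)]

theorem enorm_integral_eq (ρ : ℝ) (R : ℕ) :
    ‖∫ x, testSchwartz ρ R x * GG ρ x‖ₑ = ∫⁻ x, ENNReal.ofReal (dens ρ R x) := by
  simp_rw [testSchwartz_apply, testFun_mul]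
  rw [integral_complex_ofReal, ← ofReal_norm, Complex.norm_real,
    Real.norm_of_nonneg (integral_nonneg (dens_nonneg ρ R)),
    ofReal_integral_eq_lintegral_ofReal (integrable_dens ρ R)
      (Eventually.of_forall (dens_nonneg ρ R))]

/-- Cauchy-Schwarz in the unit disc -/
theorem enorm_pairing_sq (ρ : ℝ) (f : 𝓢(Plane, ℂ)) :
    ‖∫ x, discMultiplier ρ f x * gg ρ x‖ₑ ^ 2 ≤
      (∫⁻ x, ‖discMultiplier ρ f x‖ₑ ^ 2 * ENNReal.ofReal (wt x)) *
        ∫⁻ x, ENNReal.ofReal (wt x) := by
  have hwt2 : ∀ x, ENNReal.ofReal (wt x) ^ 2 = ENNReal.ofReal (wt x) := by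
    intro x
    unfold wt
    by_cases h : x ∈ Metric.closedBall (0 : Plane) 1
    · rw [indicator_of_mem h]; simp
    · rw [indicator_of_notMem h]; simp
  have hm : Integrable (indicator (Metric.ball (0 : Plane) ρ) (𝓕 (f : Plane → ℂ))) := by
    rw [← SchwartzMap.fourier_coe]
    exact (𝓕 f).integrable.indicator Metric.isOpen_ball.measurableSet
  have hc : Continuous (discMultiplier ρ f) := continuous_fourierInv hm
  have h1 : ‖∫ x, discMultiplier ρ f x * gg ρ x‖ₑ ≤
      ∫⁻ x, (‖discMultiplier ρ f x‖ₑ * ENNReal.ofReal (wt x)) * ENNReal.ofReal (wt x) := by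
    refine (enorm_integral_le_lintegral_enorm _).trans (le_of_eq ?_)
    refine lintegral_congr fun x => ?_
    rw [enorm_mul, mul_assoc, ← sq, hwt2, ← ofReal_norm (gg ρ x), norm_gg]
  have h2 := ENNReal.lintegral_mul_le_Lp_mul_Lq (volume : Measure Plane)
    (Real.HolderConjugate.two_two)
    (f := fun x => ‖discMultiplier ρ f x‖ₑ * ENNReal.ofReal (wt x))
    (g := fun x => ENNReal.ofReal (wt x))
    ((hc.enorm.measurable.mul (ENNReal.measurable_ofReal.comp measurable_wt)).aemeasurable)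
    ((ENNReal.measurable_ofReal.comp measurable_wt).aemeasurable)
  have h3 := h1.trans h2
  have h4 := pow_le_pow_left₀ (zero_le) h3 2
  refine h4.trans (le_of_eq ?_)
  rw [mul_pow, ← ENNReal.rpow_natCast, ← ENNReal.rpow_natCast, ← ENNReal.rpow_mul,
    ← ENNReal.rpow_mul]
  norm_num
  congr 1
  · refine lintegral_congr fun x => ?_
    rw [mul_pow, hwt2]
  · refine lintegral_congr fun x => ?_
    rw [hwt2]

theorem lintegral_dens_le (ρ : ℝ) (A : ℝ≥0)
    (hA : ∀ f : 𝓢(Plane, ℂ), ∫⁻ x, ‖discMultiplier ρ f x‖ₑ ^ 2 * ENNReal.ofReal (wt x) ≤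
      A * ∫⁻ x, ‖f x‖ₑ ^ 2 * rayMax wt x) (R : ℕ) :
    ∫⁻ x, ENNReal.ofReal (dens ρ R x) ≤ A * 8 * ∫⁻ x, ENNReal.ofReal (wt x) := by
  set I := ∫⁻ x, ENNReal.ofReal (dens ρ R x) with hI
  set V := ∫⁻ x, ENNReal.ofReal (wt x) with hV
  have hIfin : I ≠ ∞ := by
    rw [hI, ← ofReal_integral_eq_lintegral_ofReal (integrable_dens ρ R)
      (Eventually.of_forall (dens_nonneg ρ R))]
    exact ENNReal.ofReal_ne_top
  have h1 := enorm_pairing_sq ρ (testSchwartz ρ R)
  rw [pairing, enorm_integral_eq, ← hI] at h1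
  have h2 := hA (testSchwartz ρ R)
  have h3 : ∫⁻ x, ‖testSchwartz ρ R x‖ₑ ^ 2 * rayMax wt x ≤ 8 * I := by
    calc ∫⁻ x, ‖testSchwartz ρ R x‖ₑ ^ 2 * rayMax wt x
        ≤ ∫⁻ x, ENNReal.ofReal (8 * dens ρ R x) := by
          refine lintegral_mono fun x => ?_
          calc ‖testSchwartz ρ R x‖ₑ ^ 2 * rayMax wt x
              ≤ ‖testSchwartz ρ R x‖ₑ ^ 2 * ENNReal.ofReal (8 / (1 + ‖x‖)) := by
                gcongr
                exact rayMax_wt_le x
            _ = ENNReal.ofReal (‖testFun ρ R x‖ ^ 2 * (8 / (1 + ‖x‖))) := by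
                rw [testSchwartz_apply, ← ofReal_norm, ← ENNReal.ofReal_pow (norm_nonneg _),
                  ← ENNReal.ofReal_mul (by positivity)]
            _ ≤ ENNReal.ofReal (8 * dens ρ R x) :=
                ENNReal.ofReal_le_ofReal (norm_testFun_sq ρ R x)
      _ = 8 * I := by
          rw [hI, ← lintegral_const_mul']
          · refine lintegral_congr fun x => ?_
            rw [ENNReal.ofReal_mul (by norm_num)]
            norm_num
          · norm_num
  have h4 : I ^ 2 ≤ (A * (8 * I)) * V := by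
    refine h1.trans ?_
    gcongr
    exact h2.trans (by gcongr)
  by_cases h0 : I = 0
  · rw [h0]; exact zero_le
  · have h5 : I * I ≤ (A * 8 * V) * I := by
      calc I * I = I ^ 2 := by ring
        _ ≤ (A * (8 * I)) * V := h4
        _ = (A * 8 * V) * I := by ring
    exact (ENNReal.mul_le_mul_iff_left h0 hIfin).1 h5

theorem integrable_sobolev (ρ : ℝ) (A : ℝ≥0)
    (hA : ∀ f : 𝓢(Plane, ℂ), ∫⁻ x, ‖discMultiplier ρ f x‖ₑ ^ 2 * ENNReal.ofReal (wt x) ≤
      A * ∫⁻ x, ‖f x‖ₑ ^ 2 * rayMax wt x) :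
    Integrable (fun x => ‖x‖ * ‖GG ρ x‖ ^ 2) := by
  have hV : ∫⁻ x, ENNReal.ofReal (wt x) ≠ ∞ := by
    rw [← ofReal_integral_eq_lintegral_ofReal integrable_wt (Eventually.of_forall wt_nonneg)]
    exact ENNReal.ofReal_ne_top
  have hcG : Continuous (fun x => ‖x‖ * ‖GG ρ x‖ ^ 2) :=
    continuous_norm.mul ((contDiff_GG ρ).continuous.norm.pow 2)
  refine ⟨hcG.aestronglyMeasurable, ?_⟩
  have h1 : ∫⁻ x, ENNReal.ofReal (JJ x * ‖GG ρ x‖ ^ 2) ≤
      liminf (fun R : ℕ => ∫⁻ x, ENNReal.ofReal (dens ρ R x)) atTop := by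
    have h2 := lintegral_liminf_le (μ := (volume : Measure Plane)) (u := atTop)
      (f := fun (R : ℕ) x => ENNReal.ofReal (dens ρ R x))
      (fun R => ENNReal.measurable_ofReal.comp (continuous_dens ρ R).measurable)
    refine le_trans (lintegral_mono fun x => ?_) h2
    have h3 : Tendsto (fun R : ℕ => ENNReal.ofReal (dens ρ R x)) atTop
        (𝓝 (ENNReal.ofReal (JJ x * ‖GG ρ x‖ ^ 2))) := by
      refine tendsto_const_nhds.congr' ?_
      obtain ⟨N, hN⟩ := exists_nat_ge ‖x‖
      filter_upwards [eventually_ge_atTop N] with R hR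
      have h4 : cut R x = 1 := by
        apply (cut R).one_of_mem_closedBall
        rw [mem_closedBall_zero_iff]
        have : (N : ℝ) ≤ R := by exact_mod_cast hR
        show ‖x‖ ≤ (R : ℝ) + 1
        linarith
      unfold dens
      rw [h4, one_mul]
    rw [h3.liminf_eq]
  have h5 : liminf (fun R : ℕ => ∫⁻ x, ENNReal.ofReal (dens ρ R x)) atTop ≤
      A * 8 * ∫⁻ x, ENNReal.ofReal (wt x) := by
    refine liminf_le_of_le (by isBoundedDefault) ?_
    intro b hb
    obtain ⟨R, hR⟩ := hb.exists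
    exact hR.trans (lintegral_dens_le ρ A hA R)
  rw [hasFiniteIntegral_iff_norm]
  calc ∫⁻ x, ENNReal.ofReal ‖‖x‖ * ‖GG ρ x‖ ^ 2‖
      ≤ ∫⁻ x, ENNReal.ofReal (JJ x * ‖GG ρ x‖ ^ 2) := by
        refine lintegral_mono fun x => ENNReal.ofReal_le_ofReal ?_
        rw [Real.norm_of_nonneg (by positivity)]
        exact mul_le_mul_of_nonneg_right (norm_le_JJ x) (by positivity)
    _ ≤ A * 8 * ∫⁻ x, ENNReal.ofReal (wt x) := h1.trans h5
    _ < ∞ := by
        refine ENNReal.mul_lt_top (ENNReal.mul_lt_top ENNReal.coe_lt_top (by norm_num)) ?_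
        exact hV.lt_top

/-- the translated difference -/
noncomputable def dif (ρ : ℝ) (h : Plane) (x : Plane) : ℂ := vv ρ (x + h) - vv ρ x

theorem fourier_dif (ρ : ℝ) (h : Plane) (x : Plane) :
    𝓕 (dif ρ h) x = ((𝐞 (inner ℝ h x) : ℂ) - 1) * GG ρ x := by
  have hi : Integrable (fun y => vv ρ (y + h)) := (integrable_vv ρ).comp_add_right h
  have h1 : 𝓕 (dif ρ h) x = 𝓕 (fun y => vv ρ (y + h)) x - 𝓕 (vv ρ) x := by
    rw [Real.fourier_eq, Real.fourier_eq, Real.fourier_eq, ← integral_sub]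
    · refine integral_congr_ae (Eventually.of_forall fun y => ?_)
      simp only [dif, smul_sub]
    · exact (Real.fourierIntegral_convergent_iff x).2 hi
    · exact (Real.fourierIntegral_convergent_iff x).2 (integrable_vv ρ)
  have h2 : 𝓕 (fun y => vv ρ (y + h)) x = (𝐞 (inner ℝ h x) : ℂ) * GG ρ x := by
    unfold GG
    have := congrFun (VectorFourier.fourierIntegral_comp_add_right (E := ℂ) 𝐞 volume
      (innerₗ Plane) (vv ρ) h) x
    simp only [Function.comp_def] at this
    exact this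
  rw [h1, h2]
  unfold GG
  ring

theorem integrable_dif (ρ : ℝ) (h : Plane) : Integrable (dif ρ h) :=
  ((integrable_vv ρ).comp_add_right h).sub (integrable_vv ρ)

theorem memLp_vv (ρ : ℝ) : MemLp (vv ρ) 2 := by
  have h1 : vv ρ = indicator (Metric.ball (0 : Plane) ρ) (vv ρ) := by
    ext x
    by_cases h : x ∈ Metric.ball (0 : Plane) ρ
    · rw [indicator_of_mem h]
    · rw [indicator_of_notMem h, vv_zero ρ x h]
  rw [h1, memLp_indicator_iff_restrict Metric.isOpen_ball.measurableSet]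
  have : IsFiniteMeasure ((volume : Measure Plane).restrict (Metric.ball (0 : Plane) ρ)) :=
    ⟨by rw [Measure.restrict_apply_univ]; exact measure_ball_lt_top⟩
  exact MemLp.of_bound (measurable_vv ρ).aestronglyMeasurable (∫ y, ‖gg ρ y‖)
    (Eventually.of_forall (norm_vv_le ρ))

theorem memLp_dif (ρ : ℝ) (h : Plane) : MemLp (dif ρ h) 2 := by
  have h1 : MemLp (fun y => vv ρ (y + h)) 2 :=
    (memLp_vv ρ).comp_measurePreserving (measurePreserving_add_right volume h)
  exact h1.sub (memLp_vv ρ)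

theorem plancherel_dif (ρ : ℝ) (h : Plane) :
    ∫ x, ‖(𝐞 (inner ℝ h x) : ℂ) - 1‖ ^ 2 * ‖GG ρ x‖ ^ 2 = ∫ x, ‖dif ρ h x‖ ^ 2 := by
  have := (Helper390.Covario.plancherel (integrable_dif ρ h) (memLp_dif ρ h)).2
  rw [← this]
  refine integral_congr_ae (Eventually.of_forall fun x => ?_)
  simp only [fourier_dif, norm_mul, mul_pow]

/-- coordinates -/
def toPair (x : Plane) : ℝ × ℝ := (x 0, x 1)

theorem measurePreserving_toPair : MeasurePreserving toPair (volume : Measure Plane) volume := by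
  have h1 := EuclideanSpace.volume_preserving_symm_measurableEquiv_toLp (Fin 2)
  have h2 := volume_preserving_finTwoArrow ℝ
  exact h2.comp h1

/-- the part of the disc that leaves the disc under the translation -/
def reg (ρ r t : ℝ) : Set (ℝ × ℝ) :=
  regionBetween (fun y => Real.sqrt (ρ ^ 2 - y ^ 2) - t) (fun y => Real.sqrt (ρ ^ 2 - y ^ 2)) (Ioo (-r) r)

theorem measurableSet_reg (ρ r t : ℝ) : MeasurableSet (reg ρ r t) := by
  unfold reg
  refine measurableSet_regionBetween ?_ ?_ measurableSet_Ioo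
  · fun_prop
  · fun_prop

theorem volume_reg (ρ r t : ℝ) (_hr : 0 < r) (ht : 0 < t) :
    volume (reg ρ r t) = ENNReal.ofReal (2 * r * t) := by
  unfold reg
  rw [Measure.volume_eq_prod, volume_regionBetween_eq_lintegral' (by fun_prop) (by fun_prop)
    measurableSet_Ioo]
  simp only [Pi.sub_apply, sub_sub_cancel]
  rw [setLIntegral_const, Real.volume_Ioo, ← ENNReal.ofReal_mul ht.le]
  congr 1
  ring

theorem lower (ρ : ℝ) (hρ : 0 < ρ) : ∃ c > 0, ∃ t₀ > 0, ∀ t, 0 < t → t < t₀ →
    c * t ≤ ∫ x, ‖dif ρ (EuclideanSpace.single 1 t) x‖ ^ 2 := by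
  set V := volume.real (Metric.closedBall (0 : Plane) 1) with hVdef
  have hV : 0 < V := by
    refine ENNReal.toReal_pos ?_ ?_
    · exact (Metric.measure_closedBall_pos volume (0 : Plane) one_pos).ne'
    · exact measure_closedBall_lt_top.ne
  -- `gh` is large near `pt ρ`
  have hnear : ∃ r > 0, ∀ x ∈ Metric.ball (pt ρ) r, V / 2 ≤ ‖gh ρ x‖ := by
    have h1 : ContinuousAt (fun x => ‖gh ρ x‖) (pt ρ) := (continuous_gh ρ).norm.continuousAt
    have h2 : V / 2 < ‖gh ρ (pt ρ)‖ := by
      rw [gh_pt, Complex.norm_real, Real.norm_of_nonneg hV.le]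
      linarith
    have h3 : ∀ᶠ x in 𝓝 (pt ρ), V / 2 < ‖gh ρ x‖ := h1.eventually (lt_mem_nhds h2)
    obtain ⟨r, hr, h4⟩ := Metric.eventually_nhds_iff_ball.1 h3
    exact ⟨r, hr, fun x hx => (h4 x hx).le⟩
  obtain ⟨r, hr, hnear⟩ := hnear
  -- the boundary curve is close to `ρ`
  have hcurve : ∃ s > 0, ∀ y : ℝ, |y| < s → |Real.sqrt (ρ ^ 2 - y ^ 2) - ρ| < min (r / 4) (ρ / 4) := by
    have h1 : ContinuousAt (fun y : ℝ => Real.sqrt (ρ ^ 2 - y ^ 2)) 0 := by fun_prop
    rw [Metric.continuousAt_iff] at h1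
    obtain ⟨s, hs, h2⟩ := h1 (min (r / 4) (ρ / 4)) (by positivity)
    refine ⟨s, hs, fun y hy => ?_⟩
    have h3 := h2 (x := y) (by rwa [Real.dist_eq, sub_zero])
    rw [Real.dist_eq] at h3
    simpa [Real.sqrt_sq hρ.le] using h3
  obtain ⟨s, hs, hcurve⟩ := hcurve
  set r₁ := min s (min (r / 4) (ρ / 4)) with hr₁
  have hr₁pos : 0 < r₁ := by positivity
  refine ⟨(V / 2) ^ 2 * (2 * r₁), by positivity, min (r / 4) (ρ / 4), by positivity, ?_⟩
  intro t ht ht0
  have ht1 : t < r / 4 := ht0.trans_le (min_le_left _ _)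
  have ht2 : t < ρ / 4 := ht0.trans_le (min_le_right _ _)
  set S : Set Plane := toPair ⁻¹' reg ρ r₁ t with hS
  have hSm : MeasurableSet S := measurePreserving_toPair.measurable (measurableSet_reg _ _ _)
  have hSv : volume S = ENNReal.ofReal (2 * r₁ * t) := by
    rw [hS, measurePreserving_toPair.measure_preimage (measurableSet_reg _ _ _).nullMeasurableSet,
      volume_reg ρ r₁ t hr₁pos ht]
  have hkey : ∀ x ∈ S, (V / 2) ^ 2 ≤ ‖dif ρ (EuclideanSpace.single 1 t) x‖ ^ 2 := by
    intro x hx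
    obtain ⟨hx1, hx2, hx3⟩ : x 0 ∈ Ioo (-r₁) r₁ ∧ Real.sqrt (ρ ^ 2 - x 0 ^ 2) - t < x 1 ∧
        x 1 < Real.sqrt (ρ ^ 2 - x 0 ^ 2) := hx
    have hx0 : |x 0| < r₁ := abs_lt.2 hx1
    have hc := hcurve (x 0) (hx0.trans_le (min_le_left _ _))
    have hc1 := abs_lt.1 (hc.trans_le (min_le_left _ _))
    have hc2 := abs_lt.1 (hc.trans_le (min_le_right _ _))
    have hr4 : |x 0| < r / 4 := hx0.trans_le ((min_le_right _ _).trans (min_le_left _ _))
    have hρ4 : |x 0| < ρ / 4 := hx0.trans_le ((min_le_right _ _).trans (min_le_right _ _))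
    have hpos : 0 ≤ ρ ^ 2 - x 0 ^ 2 := by
      have : x 0 ^ 2 ≤ ρ ^ 2 := by
        rw [← sq_abs (x 0)]
        exact pow_le_pow_left₀ (abs_nonneg _) (by linarith) 2
      linarith
    have hsq : Real.sqrt (ρ ^ 2 - x 0 ^ 2) ^ 2 = ρ ^ 2 - x 0 ^ 2 := Real.sq_sqrt hpos
    have hx1pos : 0 < x 1 := by linarith
    have hnorm : ∀ y : Plane, ‖y‖ ^ 2 = y 0 ^ 2 + y 1 ^ 2 := by
      intro y
      rw [EuclideanSpace.norm_sq_eq, Fin.sum_univ_two, Real.norm_eq_abs, Real.norm_eq_abs, sq_abs,
        sq_abs]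
    have hin : x ∈ Metric.ball (0 : Plane) ρ := by
      rw [mem_ball_zero_iff]
      refine lt_of_pow_lt_pow_left₀ 2 hρ.le ?_
      rw [hnorm]
      nlinarith
    have hout : x + EuclideanSpace.single 1 t ∉ Metric.ball (0 : Plane) ρ := by
      rw [mem_ball_zero_iff, not_lt]
      refine le_of_sq_le_sq ?_ (norm_nonneg _)
      rw [hnorm]
      have e0 : (x + EuclideanSpace.single 1 t : Plane) 0 = x 0 := by simp
      have e1 : (x + EuclideanSpace.single 1 t : Plane) 1 = x 1 + t := by simp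
      rw [e0, e1]
      have : 0 ≤ Real.sqrt (ρ ^ 2 - x 0 ^ 2) := Real.sqrt_nonneg _
      nlinarith
    have hball : x ∈ Metric.ball (pt ρ) r := by
      rw [mem_ball_iff_norm]
      refine lt_of_pow_lt_pow_left₀ 2 hr.le ?_
      rw [hnorm]
      have e0 : (x - pt ρ : Plane) 0 = x 0 := by simp [pt]
      have e1 : (x - pt ρ : Plane) 1 = x 1 - ρ := by simp [pt]
      rw [e0, e1]
      have a1 : |x 1 - ρ| < r / 2 := by
        rw [abs_lt]
        constructor <;> linarith [hc1.1, hc1.2]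
      have a2 : x 0 ^ 2 < (r / 4) ^ 2 := by
        rw [← sq_abs (x 0)]
        exact pow_lt_pow_left₀ hr4 (abs_nonneg _) two_ne_zero
      have a3 : (x 1 - ρ) ^ 2 < (r / 2) ^ 2 := by
        rw [← sq_abs (x 1 - ρ)]
        exact pow_lt_pow_left₀ a1 (abs_nonneg _) two_ne_zero
      nlinarith
    have hval : dif ρ (EuclideanSpace.single 1 t) x = - gh ρ x := by
      unfold dif
      rw [vv_zero ρ _ hout]
      unfold vv
      rw [indicator_of_mem hin]
      ring
    rw [hval, norm_neg]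
    exact pow_le_pow_left₀ (by positivity) (hnear x hball) 2
  have hint : Integrable (fun x => ‖dif ρ (EuclideanSpace.single 1 t) x‖ ^ 2) :=
    (memLp_dif ρ _).integrable_norm_pow (by norm_num)
  calc (V / 2) ^ 2 * (2 * r₁) * t = ∫ x in S, (V / 2) ^ 2 := by
        rw [setIntegral_const, measureReal_def, hSv, ENNReal.toReal_ofReal (by positivity),
          smul_eq_mul]
        ring
    _ ≤ ∫ x in S, ‖dif ρ (EuclideanSpace.single 1 t) x‖ ^ 2 := by
        refine setIntegral_mono_on ?_ hint.integrableOn hSm hkey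
        exact integrableOn_const (hs := by rw [hSv]; exact ENNReal.ofReal_ne_top)
    _ ≤ ∫ x, ‖dif ρ (EuclideanSpace.single 1 t) x‖ ^ 2 :=
        setIntegral_le_integral hint (Eventually.of_forall fun x => by positivity)

theorem norm_char_le (θ : ℝ) : ‖(𝐞 θ : ℂ) - 1‖ ≤ 2 * π * |θ| := by
  rw [Real.fourierChar_apply]
  have h := Real.norm_exp_I_mul_ofReal_sub_one_le (x := 2 * π * θ)
  rw [mul_comm] at h
  refine h.trans (le_of_eq ?_)
  rw [Real.norm_eq_abs, abs_mul, abs_of_pos (by positivity : (0 : ℝ) < 2 * π)]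

theorem norm_char_le_two (θ : ℝ) : ‖(𝐞 θ : ℂ) - 1‖ ≤ 2 := by
  refine (norm_sub_le _ _).trans ?_
  rw [Circle.norm_coe, norm_one]
  norm_num

/-- **Negative answer to Q2**: the weighted inequality for the disc multiplier with the ray maximal
function fails for every constant. -/
theorem result (ρ : ℝ) (hρ : 0 < ρ) :
    ¬ ∃ A : ℝ≥0, ∀ (f : 𝓢(Plane, ℂ)) (φ : Plane → ℝ), IsWeight φ →
      ∫⁻ x, ‖discMultiplier ρ f x‖ₑ ^ 2 * ENNReal.ofReal (φ x) ≤
        A * ∫⁻ x, ‖f x‖ₑ ^ 2 * rayMax φ x := by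
  rintro ⟨A, hA⟩
  have hint := integrable_sobolev ρ A (fun f => hA f wt isWeight_wt)
  obtain ⟨c, hc, t₀, ht₀, hlow⟩ := lower ρ hρ
  -- the sequence of normalised differences
  set tt : ℕ → ℝ := fun n => 1 / ((n : ℝ) + 1) with htt
  have htpos : ∀ n, 0 < tt n := fun n => by simp only [htt]; positivity
  have httend : Tendsto tt atTop (𝓝 0) := tendsto_one_div_add_atTop_nhds_zero_nat
  set F : ℕ → Plane → ℝ := fun n x =>
    (tt n)⁻¹ * (‖(𝐞 (inner ℝ (EuclideanSpace.single 1 (tt n) : Plane) x) : ℂ) - 1‖ ^ 2 *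
      ‖GG ρ x‖ ^ 2) with hF
  have hinner : ∀ n (x : Plane), inner ℝ (EuclideanSpace.single 1 (tt n) : Plane) x =
      tt n * x 1 := by
    intro n x
    rw [EuclideanSpace.inner_single_left]
    simp
  have hcoord : ∀ x : Plane, |x 1| ≤ ‖x‖ := fun x => by
    have := PiLp.norm_apply_le x 1
    rwa [Real.norm_eq_abs] at this
  have hb1 : ∀ n x, F n x ≤ 4 * π * (‖x‖ * ‖GG ρ x‖ ^ 2) := by
    intro n x
    simp only [hF, hinner]
    have h1 := norm_char_le (tt n * x 1)
    have h2 := norm_char_le_two (tt n * x 1)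
    rw [abs_mul, abs_of_pos (htpos n)] at h1
    have h3 : ‖(𝐞 (tt n * x 1) : ℂ) - 1‖ ^ 2 ≤ 2 * (2 * π * (tt n * ‖x‖)) := by
      rw [sq]
      refine mul_le_mul h2 (h1.trans ?_) (norm_nonneg _) (by norm_num)
      have := hcoord x
      have := htpos n
      gcongr
    calc (tt n)⁻¹ * (‖(𝐞 (tt n * x 1) : ℂ) - 1‖ ^ 2 * ‖GG ρ x‖ ^ 2)
        ≤ (tt n)⁻¹ * ((2 * (2 * π * (tt n * ‖x‖))) * ‖GG ρ x‖ ^ 2) := by
          have := htpos n
          gcongr
      _ = 4 * π * (‖x‖ * ‖GG ρ x‖ ^ 2) := by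
          have := (htpos n).ne'
          field_simp
          ring
  have hb2 : ∀ n x, F n x ≤ tt n * (4 * π ^ 2 * ‖x‖ ^ 2 * ‖GG ρ x‖ ^ 2) := by
    intro n x
    simp only [hF, hinner]
    have h1 := norm_char_le (tt n * x 1)
    rw [abs_mul, abs_of_pos (htpos n)] at h1
    have h3 : ‖(𝐞 (tt n * x 1) : ℂ) - 1‖ ^ 2 ≤ (2 * π * (tt n * ‖x‖)) ^ 2 := by
      refine pow_le_pow_left₀ (norm_nonneg _) (h1.trans ?_) 2
      have := hcoord x
      have := htpos n
      gcongr
    calc (tt n)⁻¹ * (‖(𝐞 (tt n * x 1) : ℂ) - 1‖ ^ 2 * ‖GG ρ x‖ ^ 2)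
        ≤ (tt n)⁻¹ * ((2 * π * (tt n * ‖x‖)) ^ 2 * ‖GG ρ x‖ ^ 2) := by
          have := htpos n
          gcongr
      _ = tt n * (4 * π ^ 2 * ‖x‖ ^ 2 * ‖GG ρ x‖ ^ 2) := by
          have := (htpos n).ne'
          field_simp
          ring
  have hF0 : ∀ n x, 0 ≤ F n x := by
    intro n x
    simp only [hF]
    have := htpos n
    positivity
  have hFc : ∀ n, Continuous (F n) := by
    intro n
    simp only [hF, hinner]
    have h1 : Continuous (fun x : Plane => (𝐞 (tt n * x 1) : ℂ)) := by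
      have h2 : Continuous (fun x : Plane => tt n * x 1) := by fun_prop
      exact continuous_subtype_val.comp (Real.continuous_fourierChar.comp h2)
    exact continuous_const.mul (((h1.sub continuous_const).norm.pow 2).mul
      ((contDiff_GG ρ).continuous.norm.pow 2))
  have hlim : Tendsto (fun n => ∫ x, F n x) atTop (𝓝 (∫ _x : Plane, (0 : ℝ))) := by
    refine tendsto_integral_of_dominated_convergence (fun x => 4 * π * (‖x‖ * ‖GG ρ x‖ ^ 2))
      (fun n => (hFc n).aestronglyMeasurable) (hint.const_mul _) ?_ ?_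
    · intro n
      refine Eventually.of_forall fun x => ?_
      rw [Real.norm_of_nonneg (hF0 n x)]
      exact hb1 n x
    · refine Eventually.of_forall fun x => ?_
      have h1 : Tendsto (fun n => tt n * (4 * π ^ 2 * ‖x‖ ^ 2 * ‖GG ρ x‖ ^ 2)) atTop (𝓝 0) := by
        simpa using httend.mul_const (4 * π ^ 2 * ‖x‖ ^ 2 * ‖GG ρ x‖ ^ 2)
      exact squeeze_zero (fun n => hF0 n x) (fun n => hb2 n x) h1
  rw [integral_zero] at hlim
  have hge : ∀ᶠ n in atTop, c ≤ ∫ x, F n x := by
    filter_upwards [httend.eventually (gt_mem_nhds ht₀)] with n hn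
    have h1 := hlow (tt n) (htpos n) hn
    rw [← plancherel_dif] at h1
    simp only [hF]
    rw [integral_const_mul]
    rw [le_inv_mul_iff₀ (htpos n)]
    linarith
  have := ge_of_tendsto hlim hge
  linarith

end Pool.Agent.Results.MP_8ec070_an.DiscEndpoint
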